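import Mathlib

/-! The Zhang-Zagier height of the roots of an integer polynomial (for MP_79ce01_nt, board `zz`, row
`height`). -/

open Polynomial Finset

namespace Pool.H1.ZZ

/-- the height of (the roots of) a polynomial -/
noncomputable def height (p : ℤ[X]) : ℝ :=
  (Real.log ((p.map (Int.castRingHom ℂ)).mahlerMeasure) +
    Real.log (((p.comp (1 - X)).map (Int.castRingHom ℂ)).mahlerMeasure)) / p.natDegree

theorem mahler_comp (q : ℂ[X]) :
    (q.comp (1 - X)).mahlerMeasure =
      ‖q.leadingCoeff‖ * (q.roots.map (fun β => max 1 ‖1 - β‖)).prod := by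
  have hsp : q.Splits := IsAlgClosed.splits q
  have h1 : q.comp (1 - X) =
      C q.leadingCoeff * (q.roots.map (fun β => C (-1) * (X - C (1 - β)))).prod := by
    conv_lhs => rw [hsp.eq_prod_roots, mul_comp, C_comp, multiset_prod_comp, Multiset.map_map]
    congr 2
    refine Multiset.map_congr rfl fun β _ => ?_
    simp only [Function.comp_apply, sub_comp, X_comp, C_comp, C_neg, C_1, C_sub]
    ring
  rw [h1, mahlerMeasure_mul, mahlerMeasure_const, prod_mahlerMeasure_eq_mahlerMeasure_prod,
    Multiset.map_map]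
  congr 2
  refine Multiset.map_congr rfl fun β _ => ?_
  simp only [Function.comp_apply, mahlerMeasure_mul, mahlerMeasure_const, norm_neg, norm_one,
    one_mul, mahlerMeasure_X_sub_C]

theorem log_prod_map (s : Multiset ℂ) (f : ℂ → ℝ) (hf : ∀ x, 0 < f x) :
    Real.log (s.map f).prod = (s.map fun x => Real.log (f x)).sum := by
  induction s using Multiset.induction with
  | empty => simp
  | cons a s ih =>
    rw [Multiset.map_cons, Multiset.prod_cons, Multiset.map_cons, Multiset.sum_cons,
      Real.log_mul (hf a).ne' ?_, ih]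
    refine (Multiset.prod_pos ?_).ne'
    intro x hx
    obtain ⟨y, -, rfl⟩ := Multiset.mem_map.1 hx
    exact hf y

theorem height_eq (p : ℤ[X]) (hp0 : 0 < p.natDegree) :
    (p.natDegree : ℝ) * height p = 2 * Real.log |(p.leadingCoeff : ℝ)| +
      ((p.map (Int.castRingHom ℂ)).roots.map
        (fun β => Real.log (max 1 ‖β‖) + Real.log (max 1 ‖1 - β‖))).sum := by
  have hinj : Function.Injective (Int.castRingHom ℂ) := (Int.castRingHom ℂ).injective_int
  have hd : (p.natDegree : ℝ) ≠ 0 := by exact_mod_cast hp0.ne'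
  have hlc : ‖(p.map (Int.castRingHom ℂ)).leadingCoeff‖ = |(p.leadingCoeff : ℝ)| := by
    rw [leadingCoeff_map_of_injective hinj, eq_intCast, Complex.norm_intCast]
  have hlc0 : |(p.leadingCoeff : ℝ)| ≠ 0 := by
    have : p.leadingCoeff ≠ 0 := by
      rw [Ne, leadingCoeff_eq_zero]
      rintro rfl
      simp at hp0
    exact abs_ne_zero.2 (by exact_mod_cast this)
  have hcomp : (p.comp (1 - X)).map (Int.castRingHom ℂ) =
      (p.map (Int.castRingHom ℂ)).comp (1 - X) := by
    rw [Polynomial.map_comp]
    simp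
  have hpos : ∀ x : ℂ, 0 < max 1 ‖x‖ := fun x => lt_of_lt_of_le one_pos (le_max_left _ _)
  have hne : ∀ f : ℂ → ℝ, (∀ x, 0 < f x) →
      ((p.map (Int.castRingHom ℂ)).roots.map f).prod ≠ 0 := by
    intro f hf
    refine (Multiset.prod_pos ?_).ne'
    intro x hx
    obtain ⟨y, -, rfl⟩ := Multiset.mem_map.1 hx
    exact hf y
  unfold height
  rw [mul_div_cancel₀ _ hd, hcomp, mahler_comp, mahlerMeasure_eq_leadingCoeff_mul_prod_roots, hlc,
    Real.log_mul hlc0 (hne _ hpos), Real.log_mul hlc0 (hne _ fun x => hpos (1 - x)),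
    log_prod_map _ _ hpos, log_prod_map _ _ fun x => hpos (1 - x), Multiset.sum_map_add]
  ring

end Pool.H1.ZZ
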