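import Mathlib

/-! Resultants, roots and discriminants of irreducible integer polynomials (for MP_79ce01_nt, board
`zz`, row `res`). -/

open Polynomial Finset

namespace Pool.H1.ZZ

theorem coprime_map (p P : ℤ[X]) (hp : Irreducible p) (hp0 : 0 < p.natDegree) (hP : ¬ p ∣ P) :
    IsCoprime (p.map (Int.castRingHom ℚ)) (P.map (Int.castRingHom ℚ)) := by
  have hprim : p.IsPrimitive := hp.isPrimitive hp0.ne'
  have h1 : Irreducible (p.map (Int.castRingHom ℚ)) :=
    (IsPrimitive.Int.irreducible_iff_irreducible_map_cast hprim).1 hp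
  rcases EuclideanDomain.dvd_or_coprime _ (P.map (Int.castRingHom ℚ)) h1 with h | h
  · exact absurd ((IsPrimitive.Int.dvd_iff_map_cast_dvd_map_cast p P hprim).2 h) hP
  · exact h

theorem resultant_ne (p P : ℤ[X]) (hp : Irreducible p) (hp0 : 0 < p.natDegree) (hP : ¬ p ∣ P) :
    resultant p P ≠ 0 := by
  intro h
  have h1 := resultant_ne_zero _ _ (coprime_map p P hp hp0 hP)
  rw [natDegree_map_eq_of_injective (Int.castRingHom ℚ).injective_int,
    natDegree_map_eq_of_injective (Int.castRingHom ℚ).injective_int, resultant_map_map, h,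
    map_zero] at h1
  exact h1 rfl

/-- RES: an irreducible integer polynomial `p` and an integer polynomial `P` not divisible by it:
`|lc p|^(deg P) * ∏ |P(root)| ≥ 1`. -/
theorem res_ge_one (p P : ℤ[X]) (hp : Irreducible p) (hp0 : 0 < p.natDegree) (hP : ¬ p ∣ P) :
    1 ≤ |(p.leadingCoeff : ℝ)| ^ P.natDegree *
      ((p.map (Int.castRingHom ℂ)).roots.map
        (fun β => ‖(P.map (Int.castRingHom ℂ)).eval β‖)).prod := by
  have hinj : Function.Injective (Int.castRingHom ℂ) := (Int.castRingHom ℂ).injective_int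
  have h1 := resultant_ne p P hp hp0 hP
  have h2 := resultant_eq_prod_eval (p.map (Int.castRingHom ℂ)) (P.map (Int.castRingHom ℂ))
    P.natDegree natDegree_map_le (IsAlgClosed.splits _)
  rw [natDegree_map_eq_of_injective hinj, resultant_map_map,
    leadingCoeff_map_of_injective hinj] at h2
  have h3 : (1 : ℝ) ≤ ‖(Int.castRingHom ℂ) (resultant p P)‖ := by
    rw [eq_intCast, Complex.norm_intCast]
    exact_mod_cast Int.one_le_abs h1
  rw [h2, norm_mul, norm_pow, eq_intCast, Complex.norm_intCast] at h3
  refine h3.trans (le_of_eq ?_)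
  congr 1
  have h4 := Multiset.prod_hom (((p.map (Int.castRingHom ℂ)).roots.map
    (fun β => (P.map (Int.castRingHom ℂ)).eval β))) (normHom (α := ℂ))
  rw [Multiset.map_map] at h4
  exact h4.symm

theorem nodup_roots_map (p : ℤ[X]) (hp : Irreducible p) (hp0 : 0 < p.natDegree) :
    (p.map (Int.castRingHom ℂ)).roots.Nodup := by
  have hprim : p.IsPrimitive := hp.isPrimitive hp0.ne'
  have h1 : Irreducible (p.map (Int.castRingHom ℚ)) :=
    (IsPrimitive.Int.irreducible_iff_irreducible_map_cast hprim).1 hp
  have h2 := h1.separable.map (f := algebraMap ℚ ℂ)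
  rw [Polynomial.map_map] at h2
  have h3 : (algebraMap ℚ ℂ).comp (Int.castRingHom ℚ) = Int.castRingHom ℂ := by
    ext
    simp
  rw [h3] at h2
  exact nodup_roots h2

/-- The derivative at a root. -/
theorem eval_derivative_prod {n : ℕ} (c : ℂ) (α : Fin n → ℂ) (i : Fin n) :
    (derivative (C c * ∏ j, (X - C (α j)))).eval (α i) =
      c * ∏ j ∈ univ.filter (fun j => j ≠ i), (α i - α j) := by
  classical
  rw [derivative_C_mul, derivative_prod_finset, eval_mul, eval_C, eval_finsetSum,
    Finset.sum_eq_single i]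
  · simp only [derivative_sub, derivative_X, derivative_C, sub_zero, mul_one, eval_prod, eval_sub,
      eval_X, eval_C]
    congr 2
    ext j
    simp
  · intro k _ hk
    rw [eval_mul, eval_prod, Finset.prod_eq_zero (i := i), zero_mul]
    · simp [hk.symm]
    · simp
  · intro h
    simp at h

/-- roots as an injective family, and the discriminant inequality -/
theorem roots_family (p : ℤ[X]) (hp : Irreducible p) (hp0 : 0 < p.natDegree) :
    ∃ α : Fin p.natDegree → ℂ, Function.Injective α ∧
      (p.map (Int.castRingHom ℂ)).roots = Finset.univ.val.map α ∧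
      -(2 * p.natDegree - 1) * Real.log |(p.leadingCoeff : ℝ)| ≤
        ∑ i, ∑ j ∈ univ.filter (fun j => j ≠ i), Real.log ‖α i - α j‖ := by
  classical
  have hinj : Function.Injective (Int.castRingHom ℂ) := (Int.castRingHom ℂ).injective_int
  have hsp : (p.map (Int.castRingHom ℂ)).Splits := IsAlgClosed.splits _
  have hcard : Multiset.card (p.map (Int.castRingHom ℂ)).roots = p.natDegree := by
    rw [← hsp.natDegree_eq_card_roots, natDegree_map_eq_of_injective hinj]
  have hlc : (p.map (Int.castRingHom ℂ)).leadingCoeff = (p.leadingCoeff : ℂ) := by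
    rw [leadingCoeff_map_of_injective hinj, eq_intCast]
  have hlc0 : (p.leadingCoeff : ℝ) ≠ 0 := by
    have : p.leadingCoeff ≠ 0 := by
      rw [Ne, leadingCoeff_eq_zero]
      exact hp.ne_zero
    exact_mod_cast this
  -- the roots as a family
  obtain ⟨α, hα⟩ : ∃ α : Fin p.natDegree → ℂ,
      (p.map (Int.castRingHom ℂ)).roots = Finset.univ.val.map α := by
    rw [← hcard]
    have hl : (p.map (Int.castRingHom ℂ)).roots.toList.length =
        Multiset.card (p.map (Int.castRingHom ℂ)).roots := Multiset.length_toList _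
    refine ⟨fun i => (p.map (Int.castRingHom ℂ)).roots.toList.get (i.cast hl.symm), ?_⟩
    rw [Fin.univ_val_map]
    have h1 : List.ofFn (fun i : Fin (Multiset.card (p.map (Int.castRingHom ℂ)).roots) =>
        (p.map (Int.castRingHom ℂ)).roots.toList.get (i.cast hl.symm)) =
        (p.map (Int.castRingHom ℂ)).roots.toList := by
      apply List.ext_get
      · simp
      · intro n h1 h2
        simp
    rw [h1, Multiset.coe_toList]
  have hαinj : Function.Injective α := by
    have h1 := nodup_roots_map p hp hp0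
    rw [hα] at h1
    intro i j hij
    exact Multiset.inj_on_of_nodup_map h1 i (Finset.mem_univ i) j (Finset.mem_univ j) hij
  refine ⟨α, hαinj, hα, ?_⟩
  -- the derivative is not divisible by `p`
  have hder : p.derivative ≠ 0 := by
    intro h
    rw [derivative_eq_zero] at h
    omega
  have hP : ¬ p ∣ p.derivative := by
    intro h
    have h1 := natDegree_le_of_dvd h hder
    have h2 := natDegree_derivative_lt hp0.ne'
    omega
  have hres := res_ge_one p p.derivative hp hp0 hP
  have hfac : p.map (Int.castRingHom ℂ) = C (p.leadingCoeff : ℂ) * ∏ j, (X - C (α j)) := by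
    conv_lhs => rw [hsp.eq_prod_roots, hlc, hα, Multiset.map_map]
    rfl
  have hev : ∀ i, ‖(p.derivative.map (Int.castRingHom ℂ)).eval (α i)‖ =
      |(p.leadingCoeff : ℝ)| * ∏ j ∈ univ.filter (fun j => j ≠ i), ‖α i - α j‖ := by
    intro i
    rw [← derivative_map, hfac, eval_derivative_prod, norm_mul, norm_prod, Complex.norm_intCast]
  have hprod : ((p.map (Int.castRingHom ℂ)).roots.map
        (fun β => ‖(p.derivative.map (Int.castRingHom ℂ)).eval β‖)).prod =
      ∏ i, (|(p.leadingCoeff : ℝ)| * ∏ j ∈ univ.filter (fun j => j ≠ i), ‖α i - α j‖) := by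
    rw [hα, Multiset.map_map]
    refine Finset.prod_congr rfl fun i _ => ?_
    exact hev i
  rw [hprod, natDegree_derivative] at hres
  have hpos : 0 < |(p.leadingCoeff : ℝ)| := abs_pos.2 hlc0
  have hpos2 : ∀ i, ∀ j ∈ univ.filter (fun j => j ≠ i), ‖α i - α j‖ ≠ 0 := by
    intro i j hj
    rw [Finset.mem_filter] at hj
    rw [norm_ne_zero_iff, sub_ne_zero]
    exact fun h => hj.2 (hαinj h).symm
  have hlog := Real.log_nonneg hres
  rw [Real.log_mul (pow_ne_zero _ hpos.ne') ?_, Real.log_pow, Real.log_prod ?_] at hlog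
  · have h5 : ∀ i, Real.log (|(p.leadingCoeff : ℝ)| *
        ∏ j ∈ univ.filter (fun j => j ≠ i), ‖α i - α j‖) = Real.log |(p.leadingCoeff : ℝ)| +
        ∑ j ∈ univ.filter (fun j => j ≠ i), Real.log ‖α i - α j‖ := by
      intro i
      rw [Real.log_mul hpos.ne' (Finset.prod_ne_zero_iff.2 (hpos2 i)), Real.log_prod (hpos2 i)]
    simp only [h5, Finset.sum_add_distrib, Finset.sum_const, Finset.card_univ, Fintype.card_fin,
      nsmul_eq_mul] at hlog
    have h6 : ((p.natDegree - 1 : ℕ) : ℝ) = (p.natDegree : ℝ) - 1 := by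
      rw [Nat.cast_sub (by omega), Nat.cast_one]
    rw [h6] at hlog
    linarith
  · intro i _
    exact mul_ne_zero hpos.ne' (Finset.prod_ne_zero_iff.2 (hpos2 i))
  · rw [Finset.prod_ne_zero_iff]
    intro i _
    exact mul_ne_zero hpos.ne' (Finset.prod_ne_zero_iff.2 (hpos2 i))

end Pool.H1.ZZ
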