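import Pool.Agent.H38.ZZ.Energy
import Pool.Agent.H23.ZZ.Cnd
import Pool.Agent.H79.ZZ.MaxMod
import Pool.Agent.H1.ZZ.Res
import Pool.Agent.H1.ZZ.Height

open Polynomial Finset

namespace Pool.H1.ZZ

theorem CND_holds : H38.ZZ.CND := fun q z hq _ hu => H23.ZZ.cnd Finset.univ q z hq hu

/-- the lower bound for one irreducible polynomial which divides no `P j` -/
theorem cert_bound {J M : ℕ} (hM : 0 < M) (P : Fin J → ℤ[X])
    (n : Fin J → ℕ) (w : Fin M → ℂ) (hw : Function.Injective w) (r : Fin M → ℝ)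
    (hr : ∀ a, 0 < r a) (hr1 : ∀ a, r a ≤ 1) (e N : ℕ) (C : ℝ) (hC : 0 < C)
    (hdeg : ∑ j, n j * (P j).natDegree + e * M < 2 * N)
    (hcirc : ∀ z : ℂ, (‖z‖ = 1 ∨ ‖1 - z‖ = 1) →
      (∏ j, ‖((P j).map (Int.castRingHom ℂ)).eval z‖ ^ n j) * (∏ a, max ‖z - w a‖ (r a)) ^ e ≤
        C * (max 1 ‖z‖ * max 1 ‖1 - z‖) ^ N)
    (S : ℝ) (hS : S ≤ (∑ a, ∑ b ∈ univ.filter (fun b => b ≠ a), Real.log ‖w a - w b‖)
        + ∑ a, Real.log (r a))
    (p : ℤ[X]) (hp : Irreducible p) (hp0 : 0 < p.natDegree) (hdvd : ∀ j, ¬ p ∣ P j) :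
    (p.natDegree : ℝ) * (-Real.log C + e * S / (2 * M)) - (e * M / 2) * Real.log p.natDegree
      - e * ∑ a, 1 / r a ≤ N * (p.natDegree * height p) := by
  have hinj : Function.Injective (Int.castRingHom ℂ) := (Int.castRingHom ℂ).injective_int
  have hH := height_eq p hp0
  obtain ⟨d, hd⟩ : ∃ d : ℕ, d = p.natDegree := ⟨_, rfl⟩
  obtain ⟨α, hα, hroots, hdisc⟩ : ∃ α : Fin d → ℂ, Function.Injective α ∧
      (p.map (Int.castRingHom ℂ)).roots = Finset.univ.val.map α ∧
      -(2 * (d : ℝ) - 1) * Real.log |(p.leadingCoeff : ℝ)| ≤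
        ∑ i, ∑ j ∈ univ.filter (fun j => j ≠ i), Real.log ‖α i - α j‖ := by
    subst hd
    exact roots_family p hp hp0
  have hp0' := hp0
  rw [← hd] at hp0' hH ⊢
  have hdR : (0 : ℝ) < d := by exact_mod_cast hp0'
  have hMR : (0 : ℝ) < M := by exact_mod_cast hM
  set a : ℝ := |(p.leadingCoeff : ℝ)| with ha
  have ha1 : 1 ≤ a := by
    rw [ha]
    have h1 : (1 : ℤ) ≤ |p.leadingCoeff| := Int.one_le_abs (leadingCoeff_ne_zero.mpr hp.ne_zero)
    have h2 : ((1 : ℤ) : ℝ) ≤ ((|p.leadingCoeff| : ℤ) : ℝ) := by exact_mod_cast h1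
    rw [Int.cast_abs] at h2
    simpa using h2
  have hla : 0 ≤ Real.log a := Real.log_nonneg ha1
  -- resultants
  have hres : ∀ j, 1 ≤ a ^ (P j).natDegree *
      ∏ i, ‖((P j).map (Int.castRingHom ℂ)).eval (α i)‖ := by
    intro j
    have h := res_ge_one p (P j) hp hp0 (hdvd j)
    rw [hroots, Multiset.map_map] at h
    exact h
  have hpos : ∀ j i, 0 < ‖((P j).map (Int.castRingHom ℂ)).eval (α i)‖ := by
    intro j i
    rcases (norm_nonneg (((P j).map (Int.castRingHom ℂ)).eval (α i))).lt_or_eq with h | h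
    · exact h
    · have h1 := hres j
      rw [Finset.prod_eq_zero (Finset.mem_univ i) h.symm, mul_zero] at h1
      exact absurd h1 (by norm_num)
  have hlogres : ∀ j, 0 ≤ (P j).natDegree * Real.log a +
      ∑ i, Real.log ‖((P j).map (Int.castRingHom ℂ)).eval (α i)‖ := by
    intro j
    have h := Real.log_nonneg (hres j)
    rw [Real.log_mul (by positivity) (Finset.prod_pos fun i _ => hpos j i).ne', Real.log_pow,
      Real.log_prod fun i _ => (hpos j i).ne'] at h
    exact h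
  -- the plane bound
  have hdeg' : ∑ j, n j * ((P j).map (Int.castRingHom ℂ)).natDegree + e * M < 2 * N := by
    simpa only [natDegree_map_eq_of_injective hinj] using hdeg
  have hmm := H38.ZZ.maxmod (fun j => (P j).map (Int.castRingHom ℂ)) n w r hr e N C hdeg' hcirc
  have hmaxpos : ∀ (z : ℂ) (b : Fin M), 0 < max ‖z - w b‖ (r b) :=
    fun z b => lt_max_of_lt_right (hr b)
  have hlog : ∀ i, ∑ j, n j * Real.log ‖((P j).map (Int.castRingHom ℂ)).eval (α i)‖ +
      e * ∑ b, Real.log (max ‖α i - w b‖ (r b)) ≤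
      Real.log C + N * (Real.log (max 1 ‖α i‖) + Real.log (max 1 ‖1 - α i‖)) := by
    intro i
    have h := hmm (α i)
    have h1 : 0 < ∏ j, ‖((P j).map (Int.castRingHom ℂ)).eval (α i)‖ ^ n j :=
      Finset.prod_pos fun j _ => pow_pos (hpos j i) _
    have h2 : 0 < ∏ b, max ‖α i - w b‖ (r b) := Finset.prod_pos fun b _ => hmaxpos _ _
    have h3 : (0 : ℝ) < max 1 ‖α i‖ := lt_max_of_lt_left one_pos
    have h4 : (0 : ℝ) < max 1 ‖1 - α i‖ := lt_max_of_lt_left one_pos
    have h5 := Real.log_le_log (mul_pos h1 (pow_pos h2 e)) h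
    rw [Real.log_mul h1.ne' (pow_pos h2 e).ne', Real.log_mul hC.ne' (by positivity),
      Real.log_pow, Real.log_pow, Real.log_mul h3.ne' h4.ne',
      Real.log_prod fun j _ => (pow_pos (hpos j i) _).ne',
      Real.log_prod fun b _ => (hmaxpos _ _).ne'] at h5
    simp only [Real.log_pow] at h5
    exact h5
  -- sum over the roots
  have hsum : ∑ j, n j * (∑ i, Real.log ‖((P j).map (Int.castRingHom ℂ)).eval (α i)‖) +
      e * ∑ i, ∑ b, Real.log (max ‖α i - w b‖ (r b)) ≤
      d * Real.log C + N * ∑ i, (Real.log (max 1 ‖α i‖) + Real.log (max 1 ‖1 - α i‖)) := by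
    have h := Finset.sum_le_sum fun i (_ : i ∈ (Finset.univ : Finset (Fin d))) => hlog i
    rw [Finset.sum_add_distrib, Finset.sum_add_distrib, Finset.sum_comm, Finset.sum_const,
      Finset.card_univ, Fintype.card_fin, nsmul_eq_mul, ← Finset.mul_sum, ← Finset.mul_sum] at h
    simp only [← Finset.mul_sum] at h
    exact h
  -- resultants, summed
  have hsr : -((∑ j, n j * (P j).natDegree : ℕ) : ℝ) * Real.log a ≤
      ∑ j, n j * (∑ i, Real.log ‖((P j).map (Int.castRingHom ℂ)).eval (α i)‖) := by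
    push_cast
    rw [← Finset.sum_neg_distrib, Finset.sum_mul]
    refine Finset.sum_le_sum fun j _ => ?_
    have h := mul_le_mul_of_nonneg_left (hlogres j) (Nat.cast_nonneg (α := ℝ) (n j))
    rw [mul_zero, mul_add] at h
    linarith
  -- the height
  rw [hroots, Multiset.map_map] at hH
  have hH' : (d : ℝ) * height p = 2 * Real.log a +
      ∑ i, (Real.log (max 1 ‖α i‖) + Real.log (max 1 ‖1 - α i‖)) := hH
  -- the energy
  have hE := H38.ZZ.energy CND_holds hp0' hM α hα w hw r hr hr1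
  set T : ℝ := ∑ i, ∑ b, Real.log (max ‖α i - w b‖ (r b)) with hT
  set R : ℝ := ∑ b, 1 / r b with hR
  set Q : ℝ := ∑ i, (Real.log (max 1 ‖α i‖) + Real.log (max 1 ‖1 - α i‖)) with hQ
  set D : ℝ := ∑ i, ∑ j ∈ univ.filter (fun j => j ≠ i), Real.log ‖α i - α j‖ with hD
  set S' : ℝ := (∑ a, ∑ b ∈ univ.filter (fun b => b ≠ a), Real.log ‖w a - w b‖)
        + ∑ a, Real.log (r a) with hS'
  have hdisc' : -(2 * (d : ℝ) - 1) * Real.log a ≤ D := hdisc
  have hE' : -(M : ℝ) * Real.log a + d * S / (2 * M) - (M / 2) * Real.log d - R ≤ T := by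
    have h1 : (d * M / 2 : ℝ) * ((1 / (d : ℝ) ^ 2) * D + (1 / (M : ℝ) ^ 2) * S'
        - Real.log d / d - (2 / ((d : ℝ) * M)) * R) ≤ (d * M / 2 : ℝ) * ((2 / ((d : ℝ) * M)) * T) :=
      mul_le_mul_of_nonneg_left hE (by positivity)
    have h2 : (d * M / 2 : ℝ) * ((2 / ((d : ℝ) * M)) * T) = T := by field_simp
    have h3 : (d * M / 2 : ℝ) * ((1 / (d : ℝ) ^ 2) * D + (1 / (M : ℝ) ^ 2) * S'
        - Real.log d / d - (2 / ((d : ℝ) * M)) * R) =
        (M / (2 * d)) * D + d * S' / (2 * M) - (M / 2) * Real.log d - R := by field_simp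
    rw [h2, h3] at h1
    have h4 : -(M : ℝ) * Real.log a ≤ (M / (2 * d)) * D := by
      have h5 : (M / (2 * d) : ℝ) * (-(2 * d - 1) * Real.log a) ≤ (M / (2 * d)) * D :=
        mul_le_mul_of_nonneg_left hdisc' (by positivity)
      refine le_trans ?_ h5
      have h6 : (M / (2 * d) : ℝ) * (-(2 * d - 1) * Real.log a) =
          -(M : ℝ) * Real.log a + (M / (2 * d)) * Real.log a := by field_simp; ring
      rw [h6]
      have : 0 ≤ (M / (2 * d) : ℝ) * Real.log a := by positivity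
      linarith
    have h7 : (d : ℝ) * S / (2 * M) ≤ d * S' / (2 * M) := by gcongr
    linarith
  have hdegR : ((∑ j, n j * (P j).natDegree : ℕ) : ℝ) + e * M ≤ 2 * N := by exact_mod_cast hdeg.le
  have h8 := mul_le_mul_of_nonneg_left hE' (Nat.cast_nonneg (α := ℝ) e)
  have h9 := mul_le_mul_of_nonneg_right hdegR hla
  have h10 : (d : ℝ) * (-Real.log C + e * S / (2 * M)) = -(d * Real.log C) +
      e * (d * S / (2 * M)) := by ring
  rw [h10, hH']
  nlinarith [h8, h9, hsum, hsr]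

/-- the finiteness theorem from a certificate -/
theorem finite_of_cert {J M : ℕ} (hM : 0 < M) (P : Fin J → ℤ[X]) (hP : ∀ j, P j ≠ 0)
    (n : Fin J → ℕ) (w : Fin M → ℂ) (hw : Function.Injective w) (r : Fin M → ℝ)
    (hr : ∀ a, 0 < r a) (hr1 : ∀ a, r a ≤ 1) (e N : ℕ) (hN : 0 < N) (C : ℝ) (hC : 0 < C)
    (hdeg : ∑ j, n j * (P j).natDegree + e * M < 2 * N)
    (hcirc : ∀ z : ℂ, (‖z‖ = 1 ∨ ‖1 - z‖ = 1) →
      (∏ j, ‖((P j).map (Int.castRingHom ℂ)).eval z‖ ^ n j) * (∏ a, max ‖z - w a‖ (r a)) ^ e ≤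
        C * (max 1 ‖z‖ * max 1 ‖1 - z‖) ^ N)
    (S : ℝ) (hS : S ≤ (∑ a, ∑ b ∈ univ.filter (fun b => b ≠ a), Real.log ‖w a - w b‖)
        + ∑ a, Real.log (r a))
    (m : ℝ) (hm : m * N < -Real.log C + e * S / (2 * M)) :
    Set.Finite {α : ℂ | ∃ p : ℤ[X], Irreducible p ∧ 0 < p.natDegree ∧ aeval α p = 0 ∧
      height p ≤ m} := by
  have hinj : Function.Injective (Int.castRingHom ℂ) := (Int.castRingHom ℂ).injective_int
  -- the degree bound
  obtain ⟨D₀, hD₀⟩ : ∃ D₀ : ℕ, ∀ d : ℕ, D₀ ≤ d →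
      (e * M / 2) * Real.log d + e * ∑ a, 1 / r a <
        (-Real.log C + e * S / (2 * M) - m * N) * d := by
    have hk : 0 < -Real.log C + e * S / (2 * M) - m * N := by linarith
    set κ : ℝ := -Real.log C + e * S / (2 * M) - m * N with hκ
    set A : ℝ := e * M / 2 with hA
    set B : ℝ := e * ∑ a, 1 / r a with hB
    have hA0 : 0 ≤ A := by rw [hA]; positivity
    have h1 := (Real.isLittleO_log_id_atTop.def (show 0 < κ / (2 * (A + 1)) by positivity))
    have h2 := (Filter.eventually_gt_atTop (2 * B / κ))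
    have h3 := (Filter.eventually_ge_atTop (1 : ℝ))
    have h4 := (tendsto_natCast_atTop_atTop (R := ℝ)).eventually ((h1.and h2).and h3)
    obtain ⟨D₀, hD₀⟩ := Filter.eventually_atTop.mp h4
    refine ⟨D₀, fun d hd => ?_⟩
    obtain ⟨⟨h5, h6⟩, h7⟩ := hD₀ d hd
    rw [Real.norm_of_nonneg (Real.log_nonneg h7), id_eq,
      Real.norm_of_nonneg (by linarith : (0 : ℝ) ≤ d)] at h5
    have h8 : A * Real.log d ≤ κ / 2 * d := by
      have h9 : A * Real.log d ≤ A * (κ / (2 * (A + 1)) * d) := mul_le_mul_of_nonneg_left h5 hA0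
      refine h9.trans ?_
      have h10 : A * (κ / (2 * (A + 1)) * d) = (A / (A + 1)) * (κ / 2 * d) := by
        field_simp
      rw [h10]
      have h11 : A / (A + 1) ≤ 1 := by
        rw [div_le_one (by positivity)]; linarith
      have h12 : 0 ≤ κ / 2 * d := by positivity
      nlinarith
    have h9 : B < κ / 2 * d := by
      rw [div_lt_iff₀ hk] at h6
      linarith
    linarith
  -- finitely many polynomials
  have hfin : Set.Finite {p : ℤ[X] | p.natDegree ≤ D₀ ∧
      (p.map (Int.castRingHom ℂ)).mahlerMeasure ≤ (Real.exp (|m| * D₀)).toNNReal} :=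
    Polynomial.finite_mahlerMeasure_le D₀ _
  have hroot : ∀ p : ℤ[X], p ≠ 0 → Set.Finite {α : ℂ | aeval α p = 0} := by
    intro p hp
    have h1 : p.map (Int.castRingHom ℂ) ≠ 0 := (Polynomial.map_ne_zero_iff hinj).mpr hp
    refine ((p.map (Int.castRingHom ℂ)).roots.toFinset.finite_toSet).subset ?_
    intro α hα
    rw [Finset.mem_coe, Multiset.mem_toFinset, mem_roots h1, IsRoot.def, eval_map]
    exact hα
  have hfin1 : Set.Finite (⋃ j : Fin J, {α : ℂ | aeval α (P j) = 0}) :=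
    Set.finite_iUnion fun j => hroot _ (hP j)
  have hfin2 : Set.Finite (⋃ p ∈ {p : ℤ[X] | p ≠ 0 ∧ p.natDegree ≤ D₀ ∧
      (p.map (Int.castRingHom ℂ)).mahlerMeasure ≤ (Real.exp (|m| * D₀)).toNNReal},
      {α : ℂ | aeval α p = 0}) := by
    refine Set.Finite.biUnion (hfin.subset fun p hp => hp.2) fun p hp => hroot p hp.1
  refine (hfin1.union hfin2).subset ?_
  rintro α ⟨p, hp, hp0, hα, hh⟩
  by_cases hd : ∃ j, p ∣ P j
  · left
    obtain ⟨j, q, hq⟩ := hd
    rw [Set.mem_iUnion]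
    refine ⟨j, ?_⟩
    rw [Set.mem_ofPred_eq, hq, map_mul, hα, zero_mul]
  · right
    push Not at hd
    have hb := cert_bound hM P n w hw r hr hr1 e N C hC hdeg hcirc S hS p hp hp0 hd
    have hdR : (0 : ℝ) < p.natDegree := by exact_mod_cast hp0
    have hNR : (0 : ℝ) < N := by exact_mod_cast hN
    have hle : p.natDegree ≤ D₀ := by
      by_contra hcon
      push Not at hcon
      have h1 := hD₀ _ hcon.le
      have h2 : (N : ℝ) * (p.natDegree * height p) ≤ N * (p.natDegree * m) := by gcongr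
      nlinarith
    rw [Set.mem_iUnion₂]
    refine ⟨p, ⟨hp.ne_zero, hle, ?_⟩, hα⟩
    have hM1 : 1 ≤ (p.map (Int.castRingHom ℂ)).mahlerMeasure :=
      one_le_mahlerMeasure_of_ne_zero hp.ne_zero
    have hcomp : p.comp (1 - X) ≠ 0 := by
      intro h0
      have h1 : (p.comp (1 - X)).comp (1 - X) = p := by
        rw [comp_assoc]
        simp
      rw [h0, zero_comp] at h1
      exact hp.ne_zero h1.symm
    have hM2 : 1 ≤ ((p.comp (1 - X)).map (Int.castRingHom ℂ)).mahlerMeasure :=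
      one_le_mahlerMeasure_of_ne_zero hcomp
    have hl1 := Real.log_nonneg hM1
    have hl2 := Real.log_nonneg hM2
    have h3 : Real.log ((p.map (Int.castRingHom ℂ)).mahlerMeasure) ≤ |m| * D₀ := by
      have h4 : Real.log ((p.map (Int.castRingHom ℂ)).mahlerMeasure) +
          Real.log (((p.comp (1 - X)).map (Int.castRingHom ℂ)).mahlerMeasure) ≤
          m * p.natDegree := by
        rw [height, div_le_iff₀ hdR] at hh
        exact hh
      have h5 : m * p.natDegree ≤ |m| * D₀ := by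
        have h6 : (p.natDegree : ℝ) ≤ D₀ := by exact_mod_cast hle
        have h7 := le_abs_self m
        have h8 := abs_nonneg m
        nlinarith
      linarith
    rw [Real.coe_toNNReal _ (Real.exp_pos _).le]
    rw [← Real.log_le_iff_le_exp (by linarith)]
    exact h3

end Pool.H1.ZZ
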