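import Mathlib

/-! Averages of `log (|a + b x|^2 + δ^2)` over the unit circle (for MP_79ce01_nt, board `zz`, row
`avg`). -/

open Metric

namespace Pool.H1.ZZ

/-- The average is `log t`, where `t` is the larger root of `t^2 - A t + |a b|^2`,
`A = |a|^2 + |b|^2 + δ^2`. -/
theorem avg_eq (a b : ℂ) {δ : ℝ} (hδ : 0 < δ) :
    ∃ t : ℝ, ‖a‖ ^ 2 ≤ t ∧ ‖b‖ ^ 2 ≤ t ∧
      t * t + (‖a‖ * ‖b‖) ^ 2 = (‖a‖ ^ 2 + ‖b‖ ^ 2 + δ ^ 2) * t ∧
      Real.circleAverage (fun x : ℂ => Real.log (‖a + b * x‖ ^ 2 + δ ^ 2)) 0 1 = Real.log t := by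
  set A : ℝ := ‖a‖ ^ 2 + ‖b‖ ^ 2 + δ ^ 2 with hA
  set D : ℝ := A ^ 2 - 4 * (‖a‖ * ‖b‖) ^ 2 with hD
  have hδ2 : 0 < δ ^ 2 := by positivity
  have hA0 : 0 < A := by positivity
  have hD1 : (‖a‖ ^ 2 - ‖b‖ ^ 2) ^ 2 ≤ D := by
    rw [hD, hA]
    nlinarith [mul_nonneg hδ2.le (sq_nonneg ‖a‖), mul_nonneg hδ2.le (sq_nonneg ‖b‖),
      sq_nonneg (δ ^ 2)]
  have hD0 : 0 ≤ D := (sq_nonneg _).trans hD1
  have hs := Real.sq_sqrt hD0
  have hs0 := Real.sqrt_nonneg D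
  set s : ℝ := Real.sqrt D with hsdef
  have hs1 : |‖a‖ ^ 2 - ‖b‖ ^ 2| ≤ s := Real.abs_le_sqrt hD1
  have hs2 := abs_le.1 hs1
  set t : ℝ := (A + s) / 2 with ht
  have htq : t * t + (‖a‖ * ‖b‖) ^ 2 = A * t := by
    have : s ^ 2 = A ^ 2 - 4 * (‖a‖ * ‖b‖) ^ 2 := by rw [hs, hD]
    rw [ht]
    nlinarith
  have ht0 : 0 < t := by positivity
  have hab : ‖a‖ * ‖b‖ < t := by
    have h1 : 2 * (‖a‖ * ‖b‖) < A := by
      rw [hA]
      nlinarith [sq_nonneg (‖a‖ - ‖b‖)]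
    rw [ht]
    linarith
  refine ⟨t, ?_, ?_, htq, ?_⟩
  · rw [ht, hA]
    linarith [hs2.2]
  · rw [ht, hA]
    linarith [hs2.1]
  set α : ℝ := Real.sqrt t with hα
  have hα2 : α ^ 2 = t := Real.sq_sqrt ht0.le
  have hα0 : 0 < α := Real.sqrt_pos.2 ht0
  set β : ℂ := (starRingEnd ℂ) a * b / (α : ℂ) with hβ
  have hαC : (α : ℂ) ≠ 0 := by exact_mod_cast hα0.ne'
  have hβn : ‖β‖ = ‖a‖ * ‖b‖ / α := by
    rw [hβ, norm_div, norm_mul, RCLike.norm_conj, Complex.norm_real, Real.norm_of_nonneg hα0.le]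
  have hβα : ‖β‖ < α := by
    rw [hβn, div_lt_iff₀ hα0, ← sq, hα2]
    exact hab
  have hβ2 : ‖β‖ ^ 2 = A - t := by
    rw [hβn, div_pow, hα2, div_eq_iff ht0.ne']
    linarith
  -- the identity on the circle
  have key : ∀ x : ℂ, ‖x‖ = 1 → ‖a + b * x‖ ^ 2 + δ ^ 2 = ‖(α : ℂ) + β * x‖ ^ 2 := by
    intro x hx
    have e1 : ∀ u v : ℂ, ‖u + v‖ ^ 2 = ‖u‖ ^ 2 + ‖v‖ ^ 2 + 2 * ((starRingEnd ℂ) u * v).re := by
      intro u v
      rw [Complex.sq_norm, Complex.sq_norm, Complex.sq_norm, Complex.normSq_add]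
      have : (u * (starRingEnd ℂ) v).re = ((starRingEnd ℂ) u * v).re := by
        simp [Complex.mul_re]
      rw [this]
    have e2 : (starRingEnd ℂ) (α : ℂ) * (β * x) = (starRingEnd ℂ) a * (b * x) := by
      rw [Complex.conj_ofReal, hβ]
      field_simp
    rw [e1, e1, e2, norm_mul, norm_mul, hx, mul_one, mul_one, Complex.norm_real,
      Real.norm_of_nonneg hα0.le, hα2, hβ2, hA]
    ring
  have h1 : Real.circleAverage (fun x : ℂ => Real.log (‖a + b * x‖ ^ 2 + δ ^ 2)) 0 1 =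
      Real.circleAverage (fun x : ℂ => (2 : ℝ) • Real.log ‖(α : ℂ) + β * x‖) 0 1 := by
    refine Real.circleAverage_congr_sphere fun x hx => ?_
    rw [abs_one, mem_sphere_zero_iff_norm] at hx
    show Real.log (‖a + b * x‖ ^ 2 + δ ^ 2) = (2 : ℝ) • Real.log ‖(α : ℂ) + β * x‖
    rw [key x hx, Real.log_pow, smul_eq_mul]
    norm_num
  have h2 : Real.circleAverage (fun x : ℂ => Real.log ‖(α : ℂ) + β * x‖) 0 1 =
      Real.log ‖(α : ℂ) + β * 0‖ := by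
    have := AnalyticOnNhd.circleAverage_log_norm_of_ne_zero (R := 1) (c := 0)
      (g := fun x : ℂ => (α : ℂ) + β * x) ?_ ?_
    · exact this
    · intro x _
      fun_prop
    · intro x hx h0
      rw [abs_one, mem_closedBall_zero_iff] at hx
      have h3 : ‖(α : ℂ)‖ = ‖β * x‖ := by
        rw [eq_neg_of_add_eq_zero_left h0, norm_neg]
      rw [Complex.norm_real, Real.norm_of_nonneg hα0.le, norm_mul] at h3
      have : ‖β‖ * ‖x‖ ≤ ‖β‖ * 1 := mul_le_mul_of_nonneg_left hx (norm_nonneg _)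
      linarith
  rw [h1, Real.circleAverage_fun_smul, h2, mul_zero, add_zero, Complex.norm_real,
    Real.norm_of_nonneg hα0.le, smul_eq_mul, ← hα2, Real.log_pow]
  norm_num

/-- CIRC: average over a circle, lower and upper bounds. -/
theorem avg_lower (a b : ℂ) {δ : ℝ} (hδ : 0 < δ) (ha : a ≠ 0) :
    2 * Real.log ‖a‖ ≤
      Real.circleAverage (fun x : ℂ => Real.log (‖a + b * x‖ ^ 2 + δ ^ 2)) 0 1 := by
  obtain ⟨t, h1, -, -, h⟩ := avg_eq a b hδ
  have ha' : 0 < ‖a‖ := norm_pos_iff.2 ha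
  rw [h]
  have h2 : 2 * Real.log ‖a‖ = Real.log (‖a‖ ^ 2) := by
    rw [Real.log_pow]
    norm_num
  rw [h2]
  exact Real.log_le_log (by positivity) h1

theorem avg_upper (a : ℂ) {r δ : ℝ} (hr : 0 < r) (hδ : 0 < δ) :
    Real.circleAverage (fun x : ℂ => Real.log (‖a + (r : ℂ) * x‖ ^ 2 + δ ^ 2)) 0 1 ≤
      2 * Real.log (max ‖a‖ r) + 2 * (δ / r) := by
  obtain ⟨t, h1, h2, h3, h⟩ := avg_eq a (r : ℂ) hδ
  rw [Complex.norm_real, Real.norm_of_nonneg hr.le] at h2 h3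
  rw [h]
  set m : ℝ := max ‖a‖ r with hm
  have hm0 : 0 < m := lt_of_lt_of_le hr (le_max_right _ _)
  have hrm : r ≤ m := le_max_right _ _
  have ht0 : 0 < t := lt_of_lt_of_le (by positivity) h2
  -- `t ≤ (m + δ) ^ 2`
  have h4 : t ≤ (m + δ) ^ 2 := by
    by_contra hlt
    push Not at hlt
    -- `t + (|a| r)^2 / t = A`
    set k : ℝ := min ‖a‖ r with hk
    have hk0 : 0 ≤ k := le_min (norm_nonneg _) hr.le
    have hkm : k ≤ m := min_le_max
    have hs : ‖a‖ ^ 2 + r ^ 2 = m ^ 2 + k ^ 2 := by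
      rcases le_total ‖a‖ r with h5 | h5
      · rw [hm, hk, max_eq_right h5, min_eq_left h5]
        ring
      · rw [hm, hk, max_eq_left h5, min_eq_right h5]
    have hp : ‖a‖ * r = m * k := by
      rcases le_total ‖a‖ r with h5 | h5
      · rw [hm, hk, max_eq_right h5, min_eq_left h5]
        ring
      · rw [hm, hk, max_eq_left h5, min_eq_right h5]
    rw [hs, hp] at h3
    -- `(t - m^2) (t - k^2) = δ^2 t`
    have h6 : (t - m ^ 2) * (t - k ^ 2) = δ ^ 2 * t := by nlinarith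
    have h7 : 2 * m * δ + δ ^ 2 < t - m ^ 2 := by nlinarith
    have h8 : t - m ^ 2 ≤ t - k ^ 2 := by nlinarith
    have h9 : (t - m ^ 2) ^ 2 ≤ δ ^ 2 * t := by
      rw [← h6, sq]
      refine mul_le_mul_of_nonneg_left h8 ?_
      nlinarith [mul_pos hm0 hδ]
    -- with `y = t - m^2 > 2 m δ + δ^2`: `y^2 ≤ δ^2 (y + m^2)` is impossible
    set y : ℝ := t - m ^ 2 with hy
    have h10 : t = y + m ^ 2 := by rw [hy]; ring
    rw [h10] at h9
    have hmδ := mul_pos hm0 hδ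
    have hy0 : 0 < y := by nlinarith
    nlinarith [mul_pos hy0 hmδ, mul_pos hmδ hmδ, mul_pos hy0 (sub_pos.2 h7)]
  have h5 : Real.log t ≤ 2 * Real.log (m + δ) := by
    have h6 := Real.log_le_log ht0 h4
    rw [Real.log_pow] at h6
    exact_mod_cast h6
  have h6 : Real.log (m + δ) ≤ Real.log m + δ / r := by
    have e : m + δ = m * (1 + δ / m) := by
      field_simp
    have h7 : (0 : ℝ) < 1 + δ / m := by positivity
    rw [e, Real.log_mul hm0.ne' h7.ne']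
    have h8 := Real.log_le_sub_one_of_pos h7
    have h9 : δ / m ≤ δ / r := div_le_div_of_nonneg_left hδ.le hr hrm
    linarith
  linarith

end Pool.H1.ZZ
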