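import Pool.Agent.H38.ZZ.Def
import Pool.Agent.H79.ZZ.Pol
import Pool.Agent.H84.ZZ.Nod

/-! Soundness of the two interval checks `chkL`, `chkR`. -/

namespace H1.ZZ

open H38.ZZ

theorem FF_pos : (0 : ℝ) < FF := by unfold FF; norm_num

theorem dst_cast (a b : ℕ) : ((dst a b : ℕ) : ℝ) = |(a : ℝ) - b| := by
  unfold dst
  simp only [Nat.add_eq, Nat.sub_eq]
  rcases le_total a b with h | h
  · rw [Nat.sub_eq_zero_of_le h, zero_add, Nat.cast_sub h, abs_sub_comm, abs_of_nonneg]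
    exact sub_nonneg.2 (by exact_mod_cast h)
  · rw [Nat.sub_eq_zero_of_le h, add_zero, Nat.cast_sub h, abs_of_nonneg]
    exact sub_nonneg.2 (by exact_mod_cast h)

/-- the exponential part of an interval check -/
theorem exp_combine (H M pos neg tail k u : ℕ) (hu : u ≤ 65536)
    (h : expOK H M pos neg tail k u = true) (s t T : ℝ)
    (hs : |s * FF - ((pos : ℝ) - neg)| ≤ 2 * M + 8) (ht : t ≤ (tail : ℝ) / FF) (hT : |T| ≤ H) :
    Real.exp (s * T + t) * 4294967296 ≤ 3 ^ k * (4294967296 + u * 65536 + u * u : ℝ) := by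
  have hF := FF_pos
  unfold expOK at h
  rw [Nat.ble_eq] at h
  simp only [Nat.add_eq, Nat.mul_eq] at h
  have h' : (((dst pos neg : ℕ) : ℝ) + (2 * M + 8)) * H + tail ≤
      (k : ℝ) * 1152921504606846976 + u * 17592186044416 := by exact_mod_cast h
  rw [dst_cast] at h'
  have h1 : |s| * FF ≤ |(pos : ℝ) - neg| + (2 * M + 8) := by
    have h2 : |s| * FF = |s * FF| := by rw [abs_mul, abs_of_pos hF]
    rw [h2]
    have h3 : s * FF = ((pos : ℝ) - neg) + (s * FF - ((pos : ℝ) - neg)) := by ring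
    rw [h3]
    exact (abs_add_le _ _).trans (by linarith)
  have h4 : s * T + t ≤ ((k : ℝ) * FF + u * 17592186044416) / FF := by
    rw [le_div_iff₀ hF]
    have h5 : s * T ≤ |s| * H := by
      calc s * T ≤ |s * T| := le_abs_self _
        _ = |s| * |T| := abs_mul _ _
        _ ≤ |s| * H := mul_le_mul_of_nonneg_left hT (abs_nonneg _)
    have h6 : t * FF ≤ tail := by
      rw [le_div_iff₀ hF] at ht
      exact ht
    have h7 : |s| * FF * H ≤ (|(pos : ℝ) - neg| + (2 * M + 8)) * H :=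
      mul_le_mul_of_nonneg_right h1 (Nat.cast_nonneg _)
    have h8 : s * T * FF ≤ |s| * H * FF := mul_le_mul_of_nonneg_right h5 hF.le
    have h9 : FF = 1152921504606846976 := rfl
    rw [← h9] at h'
    nlinarith
  have h10 := (Real.exp_le_exp.2 h4).trans (H84.ZZ.exp_bound k u hu)
  calc Real.exp (s * T + t) * 4294967296
      ≤ 3 ^ k * ((4294967296 + u * 65536 + u * u : ℝ) / 4294967296) * 4294967296 :=
        mul_le_mul_of_nonneg_right h10 (by norm_num)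
    _ = 3 ^ k * (4294967296 + u * 65536 + u * u : ℝ) := by ring

/-- product of two bounds with exponentials -/
theorem comb {a b A B x y : ℝ} (hb : 0 ≤ b) (hA : 0 ≤ A)
    (h1 : a ≤ A * Real.exp x) (h2 : b ≤ B * Real.exp y) :
    a * b ≤ (A * B) * Real.exp (x + y) := by
  calc a * b ≤ (A * Real.exp x) * (B * Real.exp y) :=
        mul_le_mul h1 h2 hb (mul_nonneg hA (Real.exp_pos _).le)
    _ = (A * B) * Real.exp (x + y) := by rw [Real.exp_add]; ring

theorem tri {a b c d : ℝ} (h : |a - b| ≤ c) (e f : ℝ) (h2 : |e - f| ≤ d) :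
    |(a + e) - (b + f)| ≤ c + d := by
  have : (a + e) - (b + f) = (a - b) + (e - f) := by ring
  rw [this]
  exact (abs_add_le _ _).trans (add_le_add h h2)

theorem chkL_sound (n1 n2 n3 n4 n5 L c2n M : ℕ) (t1 t2 t3 : List ℤ) (h1 : 2 ≤ t1.length)
    (h2 : 2 ≤ t2.length) (h3 : 2 ≤ t3.length) (ch : List (ℕ × ℕ)) (hM : ch.length = M)
    (hK : ∀ a ∈ ch, 1 ≤ a.2) (C H k u : ℕ)
    (h : chkL n1 n2 n3 n4 n5 L c2n M t1 t2 t3 ch C H k u = true) (T : ℝ) (hT : |T| ≤ H) :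
    ((C : ℝ) + T) ^ n1 * |(C : ℝ) + T - 1048576| ^ (2 * n2) * |evL t1 T| ^ n3 * |evL t2 T| ^ n4
        * |evL t3 T| ^ n5 * (ch.map (nodeR (C + T))).prod * 2 ^ L ≤
      c2n * 1048576 ^ (n1 + 2 * n2 + 8 * n3 + 16 * n4 + 6 * n5 + 5 * M) := by
  have hF := FF_pos
  simp only [chkL, Bool.and_eq_true, Nat.ble_eq] at h
  obtain ⟨⟨⟨⟨⟨⟨hHC, hH⟩, hC1⟩, hV⟩, hu⟩, hE⟩, hN⟩ := h
  have hHC' : H ≤ C := hHC
  have hC0 : C ≠ 0 := by omega
  have hC1' : C + H ≤ 1048576 := hC1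
  have hCG : C ≠ 1048576 := by omega
  have hV' : sumL (ownV (C - H) (C + H)) ch = 0 := Nat.le_zero.1 hV
  obtain ⟨u0, e0, f0⟩ := H84.ZZ.lin_bound C 0 H n1 hC0
  obtain ⟨u1, e1, f1⟩ := H84.ZZ.lin_bound C 1048576 H (2 * n2) hCG
  obtain ⟨u2, e2, f2⟩ := H79.ZZ.pol_bound t1 h1 H n3
  obtain ⟨u3, e3, f3⟩ := H79.ZZ.pol_bound t2 h2 H n4
  obtain ⟨u4, e4, f4⟩ := H79.ZZ.pol_bound t3 h3 H n5
  obtain ⟨u5, e5, f5⟩ := H84.ZZ.nodes_bound C H hH hHC ch hK hV'
  have g0 := f0 T hT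
  have g1 := f1 T hT
  have g2 := f2 T hT
  have g3 := f3 T hT
  have g4 := f4 T hT
  obtain ⟨p5, g5⟩ := f5 T hT
  have hd0 : dst C 0 = C := by simp [dst]
  rw [if_pos (Nat.zero_le C), hd0] at e0
  rw [hd0] at g0
  rw [if_neg (by omega)] at e1
  have hCT : 0 ≤ (C : ℝ) + T := by
    have := (abs_le.1 hT).1
    have h6 : (H : ℝ) ≤ C := by exact_mod_cast hHC'
    linarith
  simp only [Nat.cast_zero, sub_zero] at g0
  rw [abs_of_nonneg hCT] at g0
  have g1' : |(C : ℝ) + T - 1048576| ^ (2 * n2) ≤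
      (linB H (dst C 1048576) (2 * n2) : ℝ) * Real.exp (u1 * T) := by exact_mod_cast g1
  have q1 := comb (by positivity) (Nat.cast_nonneg _) g0 g1'
  have q2 := comb (by positivity) (by positivity) q1 g2
  have q3 := comb (by positivity) (by positivity) q2 g3
  have q4 := comb (by positivity) (by positivity) q3 g4
  have q5 := comb p5 (by positivity) q4 g5
  set pos : ℕ := linS H C n1 + polP H n3 t1 + polP H n4 t2 + polP H n5 t3 + sumL (nodeP C) ch
    with hpos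
  set neg : ℕ := linS H (dst C 1048576) (2 * n2) + polN H n3 t1 + polN H n4 t2 + polN H n5 t3
        + sumL (nodeN C) ch with hneg
  set tail : ℕ := polT H n3 t1 + polT H n4 t2 + polT H n5 t3 + sumL (nodeT C H) ch with htail
  have hs : |(u0 + u1 + u2 + u3 + u4 + u5) * FF - ((pos : ℝ) - neg)| ≤ 2 * M + 8 := by
    have t1' := tri e0 _ _ e1
    have t2' := tri t1' _ _ e2
    have t3' := tri t2' _ _ e3
    have t4' := tri t3' _ _ e4
    have t5' := tri t4' _ _ e5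
    rw [hM] at t5'
    have hh : (u0 + u1 + u2 + u3 + u4 + u5) * FF - ((pos : ℝ) - neg) =
        u0 * FF + u1 * FF + u2 * FF + u3 * FF + u4 * FF + u5 * FF -
        ((linS H C n1 : ℝ) + -(linS H (dst C 1048576) (2 * n2) : ℝ)
          + ((polP H n3 t1 : ℝ) - (polN H n3 t1 : ℝ))
          + ((polP H n4 t2 : ℝ) - (polN H n4 t2 : ℝ))
          + ((polP H n5 t3 : ℝ) - (polN H n5 t3 : ℝ))
          + ((sumL (nodeP C) ch : ℝ) - (sumL (nodeN C) ch : ℝ))) := by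
      rw [hpos, hneg]
      push_cast
      ring
    rw [hh]
    refine t5'.trans ?_
    linarith
  have hX := exp_combine H M pos neg tail k u hu hE (u0 + u1 + u2 + u3 + u4 + u5)
    ((tail : ℝ) / FF) T hs le_rfl hT
  have hexp : u0 * T + u1 * T + (u2 * T + (polT H n3 t1 : ℝ) / FF)
      + (u3 * T + (polT H n4 t2 : ℝ) / FF) + (u4 * T + (polT H n5 t3 : ℝ) / FF)
      + (u5 * T + (sumL (nodeT C H) ch : ℝ) / FF) =
      (u0 + u1 + u2 + u3 + u4 + u5) * T + (tail : ℝ) / FF := by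
    rw [htail]
    push_cast
    ring
  rw [hexp] at q5
  have hN' : ((linB H C n1 : ℝ) * linB H (dst C 1048576) (2 * n2) * polB H n3 t1 * polB H n4 t2
      * polB H n5 t3 * (prodL (ownF C) ch : ℝ) ^ 2 * (prodL (rho C) ch : ℝ)
      * (4294967296 + u * 65536 + u * u) * 3 ^ k * 2 ^ L) ≤
      (c2n : ℝ) * 4294967296 * 1048576 ^ (n1 + 2 * n2 + 8 * n3 + 16 * n4 + 6 * n5 + 5 * M) := by
    exact_mod_cast hN
  set E := Real.exp ((u0 + u1 + u2 + u3 + u4 + u5) * T + (tail : ℝ) / FF) with hEdef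
  set B : ℝ := (linB H C n1 : ℝ) * linB H (dst C 1048576) (2 * n2) * polB H n3 t1 * polB H n4 t2
      * polB H n5 t3 * ((prodL (ownF C) ch : ℝ) ^ 2 * (prodL (rho C) ch : ℝ)) with hB
  have hB0 : 0 ≤ B := by positivity
  have r1 : ((C : ℝ) + T) ^ n1 * |(C : ℝ) + T - 1048576| ^ (2 * n2) * |evL t1 T| ^ n3
      * |evL t2 T| ^ n4 * |evL t3 T| ^ n5 * (ch.map (nodeR (C + T))).prod * 2 ^ L * 4294967296 ≤
      B * (3 ^ k * (4294967296 + u * 65536 + u * u)) * 2 ^ L := by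
    calc ((C : ℝ) + T) ^ n1 * |(C : ℝ) + T - 1048576| ^ (2 * n2) * |evL t1 T| ^ n3
        * |evL t2 T| ^ n4 * |evL t3 T| ^ n5 * (ch.map (nodeR (C + T))).prod * 2 ^ L * 4294967296
        ≤ B * E * 2 ^ L * 4294967296 :=
          mul_le_mul_of_nonneg_right (mul_le_mul_of_nonneg_right q5 (by positivity)) (by norm_num)
      _ = B * (E * 4294967296) * 2 ^ L := by ring
      _ ≤ B * (3 ^ k * (4294967296 + u * 65536 + u * u)) * 2 ^ L :=
          mul_le_mul_of_nonneg_right (mul_le_mul_of_nonneg_left hX hB0) (by positivity)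
  have r2 : B * (3 ^ k * (4294967296 + u * 65536 + u * u)) * 2 ^ L ≤
      (c2n : ℝ) * 4294967296 * 1048576 ^ (n1 + 2 * n2 + 8 * n3 + 16 * n4 + 6 * n5 + 5 * M) := by
    refine le_trans (le_of_eq ?_) hN'
    rw [hB]
    ring
  have r3 := r1.trans r2
  have r4 : (c2n : ℝ) * 4294967296 * 1048576 ^ (n1 + 2 * n2 + 8 * n3 + 16 * n4 + 6 * n5 + 5 * M) =
      (c2n * 1048576 ^ (n1 + 2 * n2 + 8 * n3 + 16 * n4 + 6 * n5 + 5 * M)) * 4294967296 := by
    ring
  rw [r4] at r3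
  exact le_of_mul_le_mul_right r3 (by norm_num)

/-- `1 ≤ (1 + x) exp (x ^ 2 - x)` for `x ≥ -1/2` -/
theorem one_le_mul_exp (x : ℝ) (hx : -(1 / 2) ≤ x) : 1 ≤ (1 + x) * Real.exp (-x + x ^ 2) := by
  rcases le_total 0 x with h | h
  · have h1 : (-x + x ^ 2) + 1 ≤ Real.exp (-x + x ^ 2) := Real.add_one_le_exp _
    have h2 : (1 + x) * ((-x + x ^ 2) + 1) ≤ (1 + x) * Real.exp (-x + x ^ 2) :=
      mul_le_mul_of_nonneg_left h1 (by linarith)
    have h3 : (1 + x) * ((-x + x ^ 2) + 1) = 1 + x ^ 3 := by ring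
    have h4 : 0 ≤ x ^ 3 := by positivity
    linarith
  · have h0 : 0 ≤ -x + x ^ 2 := by nlinarith
    have h1 := Real.quadratic_le_exp_of_nonneg h0
    have h2 : (1 + x) * (1 + (-x + x ^ 2) + (-x + x ^ 2) ^ 2 / 2) ≤
        (1 + x) * Real.exp (-x + x ^ 2) := mul_le_mul_of_nonneg_left h1 (by linarith)
    have h3 : (1 + x) * (1 + (-x + x ^ 2) + (-x + x ^ 2) ^ 2 / 2) =
        1 + x ^ 2 / 2 * (1 + x - x ^ 2 + x ^ 3) := by ring
    have h5 : 0 ≤ 1 + x - x ^ 2 + x ^ 3 := by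
      have h6 : x ^ 2 ≤ 1 / 4 := by nlinarith
      have h7 : -(1 / 8) ≤ x ^ 3 := by nlinarith [mul_nonneg (sub_nonneg.2 h) (sub_nonneg.2 h6)]
      linarith
    have h8 : 0 ≤ x ^ 2 / 2 * (1 + x - x ^ 2 + x ^ 3) := by positivity
    linarith

/-- the factor `X ^ (-D)` -/
theorem inv_bound (C H D : ℕ) (hH : 1 ≤ H) (hC : 2 * H ≤ C) (T : ℝ) (hT : |T| ≤ H) :
    (C : ℝ) ^ D ≤ ((C : ℝ) + T) ^ D *
      Real.exp (-((D : ℝ) / C) * T + (D * H * H : ℝ) / (C * C)) := by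
  have hC0 : (0 : ℝ) < C := by
    have : 0 < C := by omega
    exact_mod_cast this
  have hC' : 2 * (H : ℝ) ≤ C := by exact_mod_cast hC
  have hx : -(1 / 2) ≤ T / C := by
    rw [le_div_iff₀ hC0]
    have := (abs_le.1 hT).1
    linarith
  have h1 := one_le_mul_exp (T / C) hx
  have h2 : (C : ℝ) ≤ ((C : ℝ) + T) * Real.exp (-(T / C) + (T / C) ^ 2) := by
    have h3 : ((C : ℝ) + T) = C * (1 + T / C) := by field_simp
    rw [h3, mul_assoc]
    exact le_mul_of_one_le_right hC0.le h1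
  have hCT : 0 ≤ (C : ℝ) + T := by
    have := (abs_le.1 hT).1
    have h4 : (0 : ℝ) ≤ H := Nat.cast_nonneg _
    linarith
  calc (C : ℝ) ^ D ≤ (((C : ℝ) + T) * Real.exp (-(T / C) + (T / C) ^ 2)) ^ D :=
        pow_le_pow_left₀ hC0.le h2 D
    _ = ((C : ℝ) + T) ^ D * Real.exp (D * (-(T / C) + (T / C) ^ 2)) := by
        rw [mul_pow, ← Real.exp_nat_mul]
    _ ≤ _ := by
        refine mul_le_mul_of_nonneg_left (Real.exp_le_exp.2 ?_) (pow_nonneg hCT D)
        have h5 : T ^ 2 ≤ (H : ℝ) * H := by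
          have := sq_le_sq' (abs_le.1 hT).1 (abs_le.1 hT).2
          nlinarith
        have h6 : (D : ℝ) * (T / C) ^ 2 ≤ (D * H * H : ℝ) / (C * C) := by
          rw [div_pow, ← mul_div_assoc, pow_two (C : ℝ)]
          apply div_le_div_of_nonneg_right _ (by positivity)
          have := mul_le_mul_of_nonneg_left h5 (Nat.cast_nonneg D : (0 : ℝ) ≤ D)
          linarith
        have h7 : (D : ℝ) * (-(T / C) + (T / C) ^ 2) = -((D : ℝ) / C) * T + D * (T / C) ^ 2 := by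
          ring
        rw [h7]
        linarith

theorem chkR_sound (n1 n2 n3 n4 n5 N L c2n M : ℕ) (t1 t2 t3 : List ℤ) (h1 : 2 ≤ t1.length)
    (h2 : 2 ≤ t2.length) (h3 : 2 ≤ t3.length) (ch : List (ℕ × ℕ)) (hM : ch.length = M)
    (hK : ∀ a ∈ ch, 1 ≤ a.2) (C H k u : ℕ)
    (h : chkR n1 n2 n3 n4 n5 N L c2n M t1 t2 t3 ch C H k u = true) (T : ℝ) (hT : |T| ≤ H) :
    |(C : ℝ) + T - 1048576| ^ (2 * n2) * |evL t1 T| ^ n3 * |evL t2 T| ^ n4
        * |evL t3 T| ^ n5 * (ch.map (nodeR (C + T))).prod * 2 ^ L * 1048576 ^ (N - n1) ≤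
      c2n * ((C : ℝ) + T) ^ (N - n1) * 1048576 ^ (2 * n2 + 8 * n3 + 16 * n4 + 6 * n5 + 5 * M) := by
  have hF := FF_pos
  simp only [chkR, Bool.and_eq_true, Nat.ble_eq] at h
  obtain ⟨⟨⟨⟨⟨⟨hC1, hH⟩, h2H⟩, hV⟩, hu⟩, hE⟩, hN⟩ := h
  have hC1' : 1048576 + H ≤ C := hC1
  have hHC' : H ≤ C := by omega
  have hCG : C ≠ 1048576 := by omega
  have hV' : sumL (ownV (C - H) (C + H)) ch = 0 := Nat.le_zero.1 hV
  have hC0 : (0 : ℝ) < C := by
    have : 0 < C := by omega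
    exact_mod_cast this
  generalize hD : N - n1 = D at *
  obtain ⟨u1, e1, f1⟩ := H84.ZZ.lin_bound C 1048576 H (2 * n2) hCG
  obtain ⟨u2, e2, f2⟩ := H79.ZZ.pol_bound t1 h1 H n3
  obtain ⟨u3, e3, f3⟩ := H79.ZZ.pol_bound t2 h2 H n4
  obtain ⟨u4, e4, f4⟩ := H79.ZZ.pol_bound t3 h3 H n5
  obtain ⟨u5, e5, f5⟩ := H84.ZZ.nodes_bound C H hH hHC' ch hK hV'
  have g1 := f1 T hT
  have g2 := f2 T hT
  have g3 := f3 T hT
  have g4 := f4 T hT
  obtain ⟨p5, g5⟩ := f5 T hT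
  have g6 := inv_bound C H D hH h2H T hT
  rw [if_pos (by omega)] at e1
  have hCT : 0 ≤ (C : ℝ) + T := by
    have := (abs_le.1 hT).1
    have h6 : (H : ℝ) ≤ C := by exact_mod_cast hHC'
    linarith
  have e6 : |(-((D : ℝ) / C)) * FF - (-(((D * 1152921504606846976) / C : ℕ) : ℝ))| ≤ 1 := by
    have h6 := H79.ZZ.floor_close (D * 1152921504606846976) C (by omega)
    have h7 : (-((D : ℝ) / C)) * FF - (-(((D * 1152921504606846976) / C : ℕ) : ℝ)) =
        -((((D * 1152921504606846976 : ℕ) : ℝ) / (C : ℝ)) -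
          (((D * 1152921504606846976) / C : ℕ) : ℝ)) := by
      unfold FF
      push_cast
      ring
    rw [h7, abs_neg]
    exact h6
  have t6 : (D * H * H : ℝ) / (C * C) ≤
      (((D * H * H * 1152921504606846976) / (C * C) + 1 : ℕ) : ℝ) / FF := by
    rw [le_div_iff₀ hF]
    have h6 := H79.ZZ.le_floor (D * H * H * 1152921504606846976) (C * C)
      (Nat.mul_pos (by omega) (by omega))
    refine le_trans (le_of_eq ?_) h6
    unfold FF
    push_cast
    ring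
  have g1' : |(C : ℝ) + T - 1048576| ^ (2 * n2) ≤
      (linB H (dst C 1048576) (2 * n2) : ℝ) * Real.exp (u1 * T) := by exact_mod_cast g1
  have q2 := comb (by positivity) (Nat.cast_nonneg _) g1' g2
  have q3 := comb (by positivity) (by positivity) q2 g3
  have q4 := comb (by positivity) (by positivity) q3 g4
  have q5 := comb p5 (by positivity) q4 g5
  have q6 := comb (by positivity) (by positivity) q5 g6
  set pos : ℕ := linS H (dst C 1048576) (2 * n2) + polP H n3 t1 + polP H n4 t2 + polP H n5 t3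
        + sumL (nodeP C) ch with hpos
  set neg : ℕ := (D * 1152921504606846976) / C + polN H n3 t1 + polN H n4 t2 + polN H n5 t3
        + sumL (nodeN C) ch with hneg
  set tail : ℕ := (D * H * H * 1152921504606846976) / (C * C) + 1
        + polT H n3 t1 + polT H n4 t2 + polT H n5 t3 + sumL (nodeT C H) ch with htail
  have hs : |(u1 + u2 + u3 + u4 + u5 + -((D : ℝ) / C)) * FF - ((pos : ℝ) - neg)| ≤ 2 * M + 8 := by
    have t2' := tri e1 _ _ e2
    have t3' := tri t2' _ _ e3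
    have t4' := tri t3' _ _ e4
    have t5' := tri t4' _ _ e5
    have t6' := tri t5' _ _ e6
    rw [hM] at t6'
    have hh : (u1 + u2 + u3 + u4 + u5 + -((D : ℝ) / C)) * FF - ((pos : ℝ) - neg) =
        u1 * FF + u2 * FF + u3 * FF + u4 * FF + u5 * FF + (-((D : ℝ) / C)) * FF -
        ((linS H (dst C 1048576) (2 * n2) : ℝ)
          + ((polP H n3 t1 : ℝ) - (polN H n3 t1 : ℝ))
          + ((polP H n4 t2 : ℝ) - (polN H n4 t2 : ℝ))
          + ((polP H n5 t3 : ℝ) - (polN H n5 t3 : ℝ))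
          + ((sumL (nodeP C) ch : ℝ) - (sumL (nodeN C) ch : ℝ))
          + (-(((D * 1152921504606846976) / C : ℕ) : ℝ))) := by
      rw [hpos, hneg]
      simp only [Nat.cast_add]
      ring
    rw [hh]
    refine t6'.trans ?_
    linarith
  have ht : (polT H n3 t1 : ℝ) / FF + (polT H n4 t2 : ℝ) / FF + (polT H n5 t3 : ℝ) / FF
      + (sumL (nodeT C H) ch : ℝ) / FF + (D * H * H : ℝ) / (C * C) ≤ (tail : ℝ) / FF := by
    have h7 : (tail : ℝ) / FF =
        (((D * H * H * 1152921504606846976) / (C * C) + 1 : ℕ) : ℝ) / FF +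
        ((polT H n3 t1 : ℝ) / FF + (polT H n4 t2 : ℝ) / FF + (polT H n5 t3 : ℝ) / FF
      + (sumL (nodeT C H) ch : ℝ) / FF) := by
      rw [htail]
      simp only [Nat.cast_add]
      ring
    rw [h7]
    linarith
  have hX := exp_combine H M pos neg tail k u hu hE (u1 + u2 + u3 + u4 + u5 + -((D : ℝ) / C))
    ((polT H n3 t1 : ℝ) / FF + (polT H n4 t2 : ℝ) / FF + (polT H n5 t3 : ℝ) / FF
      + (sumL (nodeT C H) ch : ℝ) / FF + (D * H * H : ℝ) / (C * C)) T hs ht hT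
  have hexp : u1 * T + (u2 * T + (polT H n3 t1 : ℝ) / FF)
      + (u3 * T + (polT H n4 t2 : ℝ) / FF) + (u4 * T + (polT H n5 t3 : ℝ) / FF)
      + (u5 * T + (sumL (nodeT C H) ch : ℝ) / FF)
      + (-((D : ℝ) / C) * T + (D * H * H : ℝ) / (C * C)) =
      (u1 + u2 + u3 + u4 + u5 + -((D : ℝ) / C)) * T +
      ((polT H n3 t1 : ℝ) / FF + (polT H n4 t2 : ℝ) / FF + (polT H n5 t3 : ℝ) / FF
      + (sumL (nodeT C H) ch : ℝ) / FF + (D * H * H : ℝ) / (C * C)) := by
    ring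
  rw [hexp] at q6
  have hN' : ((linB H (dst C 1048576) (2 * n2) : ℝ) * polB H n3 t1 * polB H n4 t2
      * polB H n5 t3 * (prodL (ownF C) ch : ℝ) ^ 2 * (prodL (rho C) ch : ℝ)
      * (4294967296 + u * 65536 + u * u) * 3 ^ k * 2 ^ L * 1048576 ^ D) ≤
      (c2n : ℝ) * C ^ D * 4294967296
        * 1048576 ^ (2 * n2 + 8 * n3 + 16 * n4 + 6 * n5 + 5 * M) := by
    exact_mod_cast hN
  set E := Real.exp ((u1 + u2 + u3 + u4 + u5 + -((D : ℝ) / C)) * T +
      ((polT H n3 t1 : ℝ) / FF + (polT H n4 t2 : ℝ) / FF + (polT H n5 t3 : ℝ) / FF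
      + (sumL (nodeT C H) ch : ℝ) / FF + (D * H * H : ℝ) / (C * C))) with hEdef
  set B : ℝ := (linB H (dst C 1048576) (2 * n2) : ℝ) * polB H n3 t1 * polB H n4 t2
      * polB H n5 t3 * ((prodL (ownF C) ch : ℝ) ^ 2 * (prodL (rho C) ch : ℝ)) with hB
  have hB0 : 0 ≤ B := by positivity
  have hXD : 0 ≤ ((C : ℝ) + T) ^ D := pow_nonneg hCT D
  set P : ℝ := |(C : ℝ) + T - 1048576| ^ (2 * n2) * |evL t1 T| ^ n3 * |evL t2 T| ^ n4
        * |evL t3 T| ^ n5 * (ch.map (nodeR (C + T))).prod with hP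
  have r1 : P * 2 ^ L * 1048576 ^ D * (C ^ D * 4294967296) ≤
      ((C : ℝ) + T) ^ D * (B * (3 ^ k * (4294967296 + u * 65536 + u * u)) * 2 ^ L
        * 1048576 ^ D) := by
    calc P * 2 ^ L * 1048576 ^ D * (C ^ D * 4294967296)
        = (P * C ^ D) * (2 ^ L * 1048576 ^ D * 4294967296) := by ring
      _ ≤ (B * ((C : ℝ) + T) ^ D * E) * (2 ^ L * 1048576 ^ D * 4294967296) :=
          mul_le_mul_of_nonneg_right q6 (by positivity)
      _ = (B * ((C : ℝ) + T) ^ D) * (E * 4294967296) * (2 ^ L * 1048576 ^ D) := by ring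
      _ ≤ (B * ((C : ℝ) + T) ^ D) * (3 ^ k * (4294967296 + u * 65536 + u * u))
          * (2 ^ L * 1048576 ^ D) :=
          mul_le_mul_of_nonneg_right (mul_le_mul_of_nonneg_left hX (mul_nonneg hB0 hXD))
            (by positivity)
      _ = _ := by ring
  have r2 : B * (3 ^ k * (4294967296 + u * 65536 + u * u)) * 2 ^ L * 1048576 ^ D ≤
      (c2n : ℝ) * C ^ D * 4294967296
        * 1048576 ^ (2 * n2 + 8 * n3 + 16 * n4 + 6 * n5 + 5 * M) := by
    refine le_trans (le_of_eq ?_) hN'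
    rw [hB]
    ring
  have r3 := r1.trans (mul_le_mul_of_nonneg_left r2 hXD)
  have r4 : ((C : ℝ) + T) ^ D * ((c2n : ℝ) * C ^ D * 4294967296
        * 1048576 ^ (2 * n2 + 8 * n3 + 16 * n4 + 6 * n5 + 5 * M)) =
      (c2n * ((C : ℝ) + T) ^ D * 1048576 ^ (2 * n2 + 8 * n3 + 16 * n4 + 6 * n5 + 5 * M))
        * (C ^ D * 4294967296) := by
    ring
  rw [r4] at r3
  exact le_of_mul_le_mul_right r3 (by positivity)

end H1.ZZ
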